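import Mathlib

set_option autoImplicit false

/-!
# Eigenspace dimensions on non-tridiagonal modules of the tridiagonal algebra

Over every field with at least three elements there are parameters `β, γ, γ*, ϱ, ϱ*` and a
three-dimensional irreducible module of the tridiagonal algebra on which `A` and `A*` are
diagonalizable, do not form a tridiagonal pair, and have eigenspaces of different dimensions:
`A` has two eigenvalues, with eigenspaces of dimensions one and two, and `A*` has three eigenvalues,
with eigenspaces of dimension one.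
-/

namespace Pool.Agent.Results.MP_2c723a_al.UnequalEigenspaces

universe u

/-- The five scalars `β, γ, γ*, ϱ, ϱ*`. -/
structure Params (K : Type u) where
  β : K
  γ : K
  γs : K
  ϱ : K
  ϱs : K

/-- The expression `A²B - βABA + BA² - γ(AB + BA) - ϱB`. -/
def tdExpr {K R : Type u} [Field K] [Ring R] [Algebra K R] (β γ ϱ : K) (A B : R) : R :=
  A ^ 2 * B - β • (A * B * A) + B * A ^ 2 - γ • (A * B + B * A) - ϱ • B

/-- The defining relations of the tridiagonal algebra on the free generators `A = ι 0`,
`A* = ι 1`: they say that `A` commutes with `A²A* - βAA*A + A*A² - γ(AA* + A*A) - ϱA*` and `A*`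
commutes with `A*²A - βA*AA* + AA*² - γ*(A*A + AA*) - ϱ*A`. -/
inductive Rel {K : Type u} [Field K] (p : Params K) :
    FreeAlgebra K (Fin 2) → FreeAlgebra K (Fin 2) → Prop
  | first (A B P : FreeAlgebra K (Fin 2)) (hA : A = FreeAlgebra.ι K 0) (hB : B = FreeAlgebra.ι K 1)
      (hP : P = tdExpr p.β p.γ p.ϱ A B) : Rel p (A * P) (P * A)
  | second (A B P : FreeAlgebra K (Fin 2)) (hA : A = FreeAlgebra.ι K 0) (hB : B = FreeAlgebra.ι K 1)
      (hP : P = tdExpr p.β p.γs p.ϱs B A) : Rel p (B * P) (P * B)

/-- The tridiagonal algebra `T(β, γ, γ*, ϱ, ϱ*)`. -/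
abbrev TDAlg {K : Type u} [Field K] (p : Params K) : Type u := RingQuot (Rel p)

/-- The generator `A` of the tridiagonal algebra. -/
noncomputable def genA {K : Type u} [Field K] (p : Params K) : TDAlg p :=
  RingQuot.mkAlgHom K (Rel p) (FreeAlgebra.ι K 0)

/-- The generator `A*` of the tridiagonal algebra. -/
noncomputable def genAs {K : Type u} [Field K] (p : Params K) : TDAlg p :=
  RingQuot.mkAlgHom K (Rel p) (FreeAlgebra.ι K 1)

section Defs

variable {K V : Type u} [Field K] [AddCommGroup V] [Module K V]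

/-- `F` is diagonalizable: `V` is the sum of the eigenspaces of `F`. -/
def Diagonalizable (F : Module.End K V) : Prop := ⨆ μ : K, Module.End.eigenspace F μ = ⊤

/-- The eigenspaces of `F` can be ordered as `V_0, ..., V_d` so that
`G V_i ⊆ V_{i-1} + V_i + V_{i+1}` for all `i`, where `V_{-1} = V_{d+1} = 0`. -/
def TridiagonalOrder (F G : Module.End K V) : Prop :=
  ∃ (d : ℕ) (θ : Fin (d + 1) → K), Function.Injective θ ∧
    (∀ μ : K, Module.End.HasEigenvalue F μ ↔ μ ∈ Set.range θ) ∧
    ∀ i : Fin (d + 1), ∀ v ∈ Module.End.eigenspace F (θ i),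
      G v ∈ ⨆ j : {j : Fin (d + 1) // (j : ℕ) ≤ i + 1 ∧ (i : ℕ) ≤ j + 1},
        Module.End.eigenspace F (θ j)

/-- The pair `F, G` is a tridiagonal pair on `V`. -/
structure IsTDPair (F G : Module.End K V) : Prop where
  nonzero : Nontrivial V
  finite : FiniteDimensional K V
  diag_left : Diagonalizable F
  diag_right : Diagonalizable G
  order_left : TridiagonalOrder F G
  order_right : TridiagonalOrder G F
  irred : ∀ W : Submodule K V, (∀ v ∈ W, F v ∈ W) → (∀ v ∈ W, G v ∈ W) → W = ⊥ ∨ W = ⊤

/-- A representation is irreducible: the space is nonzero and its only invariant subspaces are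
`0` and the whole space. -/
def IsIrr {T : Type u} [Ring T] [Algebra K T] (ρ : T →ₐ[K] Module.End K V) : Prop :=
  Nontrivial V ∧ ∀ W : Submodule K V, (∀ t : T, ∀ v ∈ W, ρ t v ∈ W) → W = ⊥ ∨ W = ⊤

/-- The two operators `F, G` are diagonalizable and do not form a tridiagonal pair, the
eigenspaces of `F` for the eigenvalues `1` and `0` have dimensions `1` and `2`, and some
eigenspace of `G` has dimension `1`. -/
structure Bad (F G : Module.End K V) : Prop where
  diag_left : Diagonalizable F
  diag_right : Diagonalizable G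
  not_td : ¬ IsTDPair F G
  dim_one : Module.finrank K (Module.End.eigenspace F 1) = 1
  dim_two : Module.finrank K (Module.End.eigenspace F 0) = 2
  dim_right : ∃ μ : K, Module.finrank K (Module.End.eigenspace G μ) = 1

/-- On the space `V` there is, for some parameters, an irreducible representation of the
tridiagonal algebra in which `A` and `A*` act as a pair with the property `Bad`. -/
def HasBadRep (K V : Type u) [Field K] [AddCommGroup V] [Module K V] : Prop :=
  ∃ (p : Params K) (ρ : TDAlg p →ₐ[K] Module.End K V),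
    IsIrr ρ ∧ Bad (ρ (genA p)) (ρ (genAs p))

end Defs

section Constr

variable {K : Type u} [Field K]

/-- The rank one idempotent `w ↦ (w 0 + w 1 - w 2) (1, 1, 1)`. -/
def opA : Module.End K (Fin 3 → K) where
  toFun w := fun _ => w 0 + w 1 - w 2
  map_add' v w := by
    funext i
    simp only [Pi.add_apply]
    ring
  map_smul' c v := by
    funext i
    simp only [Pi.smul_apply, smul_eq_mul, RingHom.id_apply]
    ring

/-- The diagonal operator with entries `θ`. -/
def opB (θ : Fin 3 → K) : Module.End K (Fin 3 → K) where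
  toFun w := fun i => θ i * w i
  map_add' v w := by
    funext i
    simp only [Pi.add_apply]
    ring
  map_smul' c v := by
    funext i
    simp only [Pi.smul_apply, smul_eq_mul, RingHom.id_apply]
    ring

@[simp] theorem opA_apply (w : Fin 3 → K) (i : Fin 3) : opA w i = w 0 + w 1 - w 2 := rfl
@[simp] theorem opB_apply (θ w : Fin 3 → K) (i : Fin 3) : opB θ w i = θ i * w i := rfl

theorem rel1 (θ : Fin 3 → K) (P : Module.End K (Fin 3 → K))
    (hP : P = opA ^ 2 * opB θ - (-1 : K) • (opA * opB θ * opA) + opB θ * opA ^ 2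
      - (1 : K) • (opA * opB θ + opB θ * opA) - (0 : K) • opB θ) :
    opA * P - P * opA = 0 := by
  subst hP
  refine LinearMap.ext fun w => funext fun i => ?_
  fin_cases i <;>
  · simp only [pow_two, Module.End.mul_apply, LinearMap.sub_apply, LinearMap.add_apply,
      LinearMap.smul_apply, opA_apply, opB_apply, Pi.sub_apply, Pi.add_apply, Pi.smul_apply,
      smul_eq_mul, LinearMap.zero_apply, Pi.zero_apply]
    ring

theorem rel2 (θ : Fin 3 → K) (P : Module.End K (Fin 3 → K))
    (hP : P = opB θ ^ 2 * opA - (-1 : K) • (opB θ * opA * opB θ) + opA * opB θ ^ 2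
      - (θ 0 + θ 1 + θ 2) • (opB θ * opA + opA * opB θ)
      - (-(θ 0 * θ 1 + θ 1 * θ 2 + θ 0 * θ 2)) • opA) :
    opB θ * P - P * opB θ = 0 := by
  subst hP
  refine LinearMap.ext fun w => funext fun i => ?_
  fin_cases i <;>
  · simp [pow_two, Module.End.mul_apply]
    ring

/-- The parameters. -/
def par (θ : Fin 3 → K) : Params K :=
  ⟨-1, 1, θ 0 + θ 1 + θ 2, 0, -(θ 0 * θ 1 + θ 1 * θ 2 + θ 0 * θ 2)⟩

/-- The representation. -/
noncomputable def rep (θ : Fin 3 → K) : TDAlg (par θ) →ₐ[K] Module.End K (Fin 3 → K) :=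
  RingQuot.liftAlgHom K ⟨FreeAlgebra.lift K ![opA, opB θ], by
    rintro x y (⟨A, B, P, rfl, rfl, rfl⟩ | ⟨A, B, P, rfl, rfl, rfl⟩)
    · simp only [tdExpr, map_sub, map_mul, map_add, map_pow, map_smul, FreeAlgebra.lift_ι_apply,
        Matrix.cons_val_zero, Matrix.cons_val_one]
      exact sub_eq_zero.1 (rel1 θ _ rfl)
    · simp only [tdExpr, map_sub, map_mul, map_add, map_pow, map_smul, FreeAlgebra.lift_ι_apply,
        Matrix.cons_val_zero, Matrix.cons_val_one]
      exact sub_eq_zero.1 (rel2 θ _ rfl)⟩

theorem rep_A (θ : Fin 3 → K) : rep θ (genA _) = opA := by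
  refine (RingQuot.liftAlgHom_mkAlgHom_apply K _ _ _).trans ?_
  rw [FreeAlgebra.lift_ι_apply]
  rfl

theorem rep_As (θ : Fin 3 → K) : rep θ (genAs _) = opB θ := by
  refine (RingQuot.liftAlgHom_mkAlgHom_apply K _ _ _).trans ?_
  rw [FreeAlgebra.lift_ι_apply]
  rfl

theorem eig_one : Module.End.eigenspace (opA : Module.End K (Fin 3 → K)) 1 =
    K ∙ (fun _ => 1 : Fin 3 → K) := by
  ext w
  rw [Module.End.mem_eigenspace_iff, Submodule.mem_span_singleton, one_smul]
  constructor
  · intro h
    refine ⟨w 0 + w 1 - w 2, ?_⟩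
    rw [← h]
    funext i
    simp only [Pi.smul_apply, smul_eq_mul, mul_one, opA_apply]
    have h0 := congrFun h 0
    have h1 := congrFun h 1
    have h2 := congrFun h 2
    rw [opA_apply] at h0 h1 h2
    rw [← h0, ← h1, ← h2]
    ring
  · rintro ⟨c, rfl⟩
    funext i
    simp only [opA_apply, Pi.smul_apply, smul_eq_mul, mul_one]
    ring

theorem eig_zero_finrank :
    Module.finrank K (Module.End.eigenspace (opA : Module.End K (Fin 3 → K)) 0) = 2 := by
  have h1 : Module.End.eigenspace (opA : Module.End K (Fin 3 → K)) 0 =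
      Submodule.span K (Set.range ![(![1, 0, 1] : Fin 3 → K), ![0, 1, 1]]) := by
    ext w
    rw [Module.End.mem_eigenspace_iff, zero_smul]
    constructor
    · intro h
      have h0 : w 0 + w 1 - w 2 = 0 := congrFun h 0
      have hw : w = w 0 • (![1, 0, 1] : Fin 3 → K) + w 1 • (![0, 1, 1] : Fin 3 → K) := by
        funext i
        fin_cases i
        · simp
        · simp
        · simp
          linear_combination -h0
      rw [hw]
      refine Submodule.add_mem _ (Submodule.smul_mem _ _ (Submodule.subset_span ⟨0, rfl⟩))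
        (Submodule.smul_mem _ _ (Submodule.subset_span ⟨1, rfl⟩))
    · intro h
      have h2 : Submodule.span K (Set.range ![(![1, 0, 1] : Fin 3 → K), ![0, 1, 1]]) ≤
          LinearMap.ker (opA : Module.End K (Fin 3 → K)) := by
        rw [Submodule.span_le]
        rintro _ ⟨i, rfl⟩
        fin_cases i
        · change opA (![1, 0, 1] : Fin 3 → K) = 0
          funext j
          simp
        · change opA (![0, 1, 1] : Fin 3 → K) = 0
          funext j
          simp
      exact h2 h
  rw [h1, finrank_span_eq_card]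
  · simp
  · rw [LinearIndependent.pair_iff]
    intro s t h
    have e0 := congrFun h 0
    have e1 := congrFun h 1
    simp at e0 e1
    exact ⟨e0, e1⟩

theorem eig_B (θ : Fin 3 → K) (hθ : Function.Injective θ) (i : Fin 3) :
    Module.End.eigenspace (opB θ) (θ i) = K ∙ (Pi.single i 1 : Fin 3 → K) := by
  ext w
  rw [Module.End.mem_eigenspace_iff, Submodule.mem_span_singleton]
  constructor
  · intro h
    refine ⟨w i, ?_⟩
    funext j
    by_cases hj : j = i
    · subst hj
      simp
    · have hj2 := congrFun h j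
      simp only [opB_apply, Pi.smul_apply, smul_eq_mul] at hj2
      have hj3 : (θ j - θ i) * w j = 0 := by linear_combination hj2
      rcases mul_eq_zero.1 hj3 with h4 | h4
      · exact absurd (hθ (sub_eq_zero.1 h4)) hj
      · simp [h4, hj]
  · rintro ⟨c, rfl⟩
    funext j
    by_cases hj : j = i
    · subst hj
      simp
    · simp [hj]

theorem finrank_eig_B (θ : Fin 3 → K) (hθ : Function.Injective θ) (i : Fin 3) :
    Module.finrank K (Module.End.eigenspace (opB θ) (θ i)) = 1 := by
  rw [eig_B θ hθ]
  refine finrank_span_singleton ?_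
  intro h
  have := congrFun h i
  simp at this

theorem diagA : Diagonalizable (opA : Module.End K (Fin 3 → K)) := by
  unfold Diagonalizable
  rw [eq_top_iff]
  intro w _
  have h1 : opA w ∈ Module.End.eigenspace (opA : Module.End K (Fin 3 → K)) 1 := by
    rw [Module.End.mem_eigenspace_iff, one_smul]
    funext i
    simp only [opA_apply]
    ring
  have h2 : w - opA w ∈ Module.End.eigenspace (opA : Module.End K (Fin 3 → K)) 0 := by
    rw [Module.End.mem_eigenspace_iff, zero_smul]
    funext i
    simp only [opA_apply, Pi.sub_apply, Pi.zero_apply]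
    ring
  have h3 : w = opA w + (w - opA w) := by abel
  rw [h3]
  exact Submodule.add_mem _ (Submodule.mem_iSup_of_mem 1 h1) (Submodule.mem_iSup_of_mem 0 h2)

theorem diagB (θ : Fin 3 → K) : Diagonalizable (opB θ) := by
  unfold Diagonalizable
  rw [eq_top_iff]
  intro w _
  have h3 : w = ∑ i, w i • (Pi.single i 1 : Fin 3 → K) := by
    funext j
    simp [Finset.sum_apply, Pi.single_apply]
  rw [h3]
  refine Submodule.sum_mem _ fun i _ => Submodule.smul_mem _ _
    (Submodule.mem_iSup_of_mem (θ i) ?_)
  rw [Module.End.mem_eigenspace_iff]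
  funext j
  by_cases hj : j = i
  · subst hj
    simp
  · simp [hj]

theorem eigvals_B (θ : Fin 3 → K) (μ : K) (h : Module.End.HasEigenvalue (opB θ) μ) :
    ∃ i, θ i = μ := by
  obtain ⟨w, hw⟩ := h.exists_hasEigenvector
  have h1 := hw.1
  rw [Module.End.mem_eigenspace_iff] at h1
  obtain ⟨i, hi⟩ : ∃ i, w i ≠ 0 := by
    by_contra hcon
    push Not at hcon
    exact hw.2 (funext hcon)
  refine ⟨i, ?_⟩
  have h2 := congrFun h1 i
  simp only [opB_apply, Pi.smul_apply, smul_eq_mul] at h2
  exact mul_right_cancel₀ hi h2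

/-- no tridiagonal order for the eigenspaces of `opB` with respect to `opA` -/
theorem not_order (θ : Fin 3 → K) (hθ : Function.Injective θ) :
    ¬ TridiagonalOrder (opB θ) opA := by
  rintro ⟨d, t, ht, hr, hc⟩
  have h0 : Module.End.HasEigenvalue (opB θ) (t 0) := (hr _).2 ⟨0, rfl⟩
  obtain ⟨k, hk⟩ := eigvals_B θ _ h0
  -- the first eigenspace contains a basis vector
  have hv : (Pi.single k 1 : Fin 3 → K) ∈ Module.End.eigenspace (opB θ) (t 0) := by
    rw [← hk, eig_B θ hθ]
    exact Submodule.mem_span_singleton_self _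
  have h1 := hc 0 _ hv
  -- the value is a nonzero multiple of the all-ones vector
  obtain ⟨c, hc0, hcv⟩ : ∃ c : K, c ≠ 0 ∧ opA (Pi.single k 1 : Fin 3 → K) = fun _ => c := by
    fin_cases k
    · exact ⟨1, one_ne_zero, by funext i; simp⟩
    · exact ⟨1, one_ne_zero, by funext i; simp⟩
    · exact ⟨-1, neg_ne_zero.2 one_ne_zero, by funext i; simp⟩
  -- two eigenvalues
  obtain ⟨a, b, hab⟩ : ∃ a b : K, ∀ j : {j : Fin (d + 1) // (j : ℕ) ≤ (0 : Fin (d + 1)) + 1 ∧
      ((0 : Fin (d + 1)) : ℕ) ≤ j + 1}, t j = a ∨ t j = b := by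
    by_cases hd : d = 0
    · subst hd
      refine ⟨t 0, t 0, fun j => Or.inl ?_⟩
      congr 1
      exact Subsingleton.elim (α := Fin 1) _ _
    · refine ⟨t 0, t ⟨1, by omega⟩, fun j => ?_⟩
      have hj : ((j : Fin (d + 1)) : ℕ) ≤ 0 + 1 := j.2.1
      rcases Nat.lt_or_ge ((j : Fin (d + 1)) : ℕ) 1 with h | h
      · left
        congr 1
        apply Fin.ext
        change ((j : Fin (d + 1)) : ℕ) = 0
        omega
      · right
        congr 1
        apply Fin.ext
        change ((j : Fin (d + 1)) : ℕ) = 1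
        omega
  have h2 : (⨆ j : {j : Fin (d + 1) // (j : ℕ) ≤ (0 : Fin (d + 1)) + 1 ∧
      ((0 : Fin (d + 1)) : ℕ) ≤ j + 1}, Module.End.eigenspace (opB θ) (t j)) ≤
      LinearMap.ker ((opB θ - a • LinearMap.id) ∘ₗ (opB θ - b • LinearMap.id)) := by
    refine iSup_le fun j w hw => ?_
    rw [Module.End.mem_eigenspace_iff] at hw
    rw [LinearMap.mem_ker]
    funext i
    have hi := congrFun hw i
    simp only [opB_apply, Pi.smul_apply, smul_eq_mul] at hi
    simp only [LinearMap.comp_apply, LinearMap.sub_apply, LinearMap.smul_apply,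
      LinearMap.id_apply, Pi.sub_apply, opB_apply, Pi.smul_apply, smul_eq_mul, Pi.zero_apply]
    rcases hab j with h | h
    · rw [h] at hi
      linear_combination (θ i - b) * hi
    · rw [h] at hi
      linear_combination (θ i - a) * hi
  have h3 := h2 h1
  rw [hcv, LinearMap.mem_ker] at h3
  have h4 : ∀ i, θ i = a ∨ θ i = b := by
    intro i
    have hi := congrFun h3 i
    simp only [LinearMap.comp_apply, LinearMap.sub_apply, LinearMap.smul_apply,
      LinearMap.id_apply, Pi.sub_apply, opB_apply, Pi.smul_apply, smul_eq_mul, Pi.zero_apply] at hi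
    have h5 : (θ i - a) * (θ i - b) * c = 0 := by linear_combination hi
    rcases mul_eq_zero.1 h5 with h6 | h6
    · rcases mul_eq_zero.1 h6 with h7 | h7
      · exact Or.inl (sub_eq_zero.1 h7)
      · exact Or.inr (sub_eq_zero.1 h7)
    · exact absurd h6 hc0
  have n01 : θ 0 ≠ θ 1 := fun h => by simpa using hθ h
  have n02 : θ 0 ≠ θ 2 := fun h => by simpa using hθ h
  have n12 : θ 1 ≠ θ 2 := fun h => by simpa using hθ h
  rcases h4 0 with h | h <;> rcases h4 1 with h' | h' <;> rcases h4 2 with h'' | h''
  · exact n01 (h.trans h'.symm)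
  · exact n01 (h.trans h'.symm)
  · exact n02 (h.trans h''.symm)
  · exact n12 (h'.trans h''.symm)
  · exact n12 (h'.trans h''.symm)
  · exact n02 (h.trans h''.symm)
  · exact n01 (h.trans h'.symm)
  · exact n01 (h.trans h'.symm)

theorem irr (θ : Fin 3 → K) (hθ : Function.Injective θ) (W : Submodule K (Fin 3 → K))
    (hA : ∀ v ∈ W, opA v ∈ W) (hB : ∀ v ∈ W, opB θ v ∈ W) : W = ⊥ ∨ W = ⊤ := by
  by_cases hW : W = ⊥
  · exact Or.inl hW
  right
  obtain ⟨w, hw, hw0⟩ := W.ne_bot_iff.1 hW
  -- separation
  have sep : ∀ v ∈ W, ∀ i, v i ≠ 0 → (Pi.single i 1 : Fin 3 → K) ∈ W := by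
    intro v hv i hi
    have step : ∀ u ∈ W, ∀ a : K, opB θ u - a • u ∈ W := fun u hu a =>
      W.sub_mem (hB u hu) (W.smul_mem a hu)
    have n01 : θ 0 ≠ θ 1 := fun h => by simpa using hθ h
    have n02 : θ 0 ≠ θ 2 := fun h => by simpa using hθ h
    have n12 : θ 1 ≠ θ 2 := fun h => by simpa using hθ h
    have main : ∀ a b : K, (θ i - a) ≠ 0 → (θ i - b) ≠ 0 →
        (∀ j, j ≠ i → (θ j - a) * (θ j - b) = 0) → (Pi.single i 1 : Fin 3 → K) ∈ W := by
      intro a b ha hb hj
      have h1 := step _ (step v hv a) b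
      have h2 : opB θ (opB θ v - a • v) - b • (opB θ v - a • v) =
          ((θ i - a) * (θ i - b) * v i) • (Pi.single i 1 : Fin 3 → K) := by
        funext j
        simp only [opB_apply, Pi.sub_apply, Pi.smul_apply, smul_eq_mul]
        by_cases hji : j = i
        · subst hji
          simp
          ring
        · simp only [Pi.single_apply, if_neg hji, mul_zero]
          linear_combination (v j) * hj j hji
      rw [h2] at h1
      have h3 : ((θ i - a) * (θ i - b) * v i) ≠ 0 := mul_ne_zero (mul_ne_zero ha hb) hi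
      exact (W.smul_mem_iff h3).1 h1
    fin_cases i
    · refine main (θ 1) (θ 2) (sub_ne_zero.2 n01) (sub_ne_zero.2 n02) ?_
      intro j hj
      fin_cases j
      · exact absurd rfl hj
      · simp
      · simp
    · refine main (θ 0) (θ 2) (sub_ne_zero.2 n01.symm) (sub_ne_zero.2 n12) ?_
      intro j hj
      fin_cases j
      · simp
      · exact absurd rfl hj
      · simp
    · refine main (θ 0) (θ 1) (sub_ne_zero.2 n02.symm) (sub_ne_zero.2 n12.symm) ?_
      intro j hj
      fin_cases j
      · simp
      · simp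
      · exact absurd rfl hj
  obtain ⟨i, hi⟩ : ∃ i, w i ≠ 0 := by
    by_contra hcon
    push Not at hcon
    exact hw0 (funext hcon)
  have h1 := sep w hw i hi
  obtain ⟨c, hc0, hcv⟩ : ∃ c : K, c ≠ 0 ∧ opA (Pi.single i 1 : Fin 3 → K) = fun _ => c := by
    fin_cases i
    · exact ⟨1, one_ne_zero, by funext i; simp⟩
    · exact ⟨1, one_ne_zero, by funext i; simp⟩
    · exact ⟨-1, neg_ne_zero.2 one_ne_zero, by funext i; simp⟩
  have h2 := hA _ h1
  rw [hcv] at h2
  have h3 : ∀ j, (Pi.single j 1 : Fin 3 → K) ∈ W := fun j => sep _ h2 j hc0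
  rw [eq_top_iff]
  intro v _
  have h4 : v = ∑ j, v j • (Pi.single j 1 : Fin 3 → K) := by
    funext k
    simp [Finset.sum_apply, Pi.single_apply]
  rw [h4]
  exact Submodule.sum_mem _ fun j _ => W.smul_mem _ (h3 j)

end Constr

/-- **Main result.** Over every field `K` with at least three elements there are parameters and a
three-dimensional irreducible representation `ρ` of the tridiagonal algebra such that `A` and `A*`
act diagonalizably but not as a tridiagonal pair, while `A` has exactly two eigenvalues, whose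
eigenspaces have dimensions `1` and `2`, and `A*` has an eigenspace of dimension `1`. -/
theorem result (K : Type u) [Field K] (hK : ∃ a b c : K, a ≠ b ∧ a ≠ c ∧ b ≠ c) :
    HasBadRep K (Fin 3 → K) := by
  obtain ⟨a, b, c, hab, hac, hbc⟩ := hK
  set θ : Fin 3 → K := ![a, b, c] with hθdef
  have hθ : Function.Injective θ := by
    intro i j hij
    fin_cases i <;> fin_cases j <;> simp [hθdef] at hij ⊢
    · exact hab hij
    · exact hac hij
    · exact hab hij.symm
    · exact hbc hij
    · exact hac hij.symm
    · exact hbc hij.symm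
  have hbad : Bad (opA : Module.End K (Fin 3 → K)) (opB θ) := by
    refine ⟨diagA, diagB θ, fun h => not_order θ hθ h.order_right, ?_, eig_zero_finrank, ?_⟩
    · rw [eig_one]
      refine finrank_span_singleton ?_
      intro h
      have := congrFun h 0
      simp at this
    · exact ⟨θ 0, finrank_eig_B θ hθ 0⟩
  refine ⟨par θ, rep θ, ⟨inferInstance, ?_⟩, ?_⟩
  · intro W hW
    refine irr θ hθ W ?_ ?_
    · intro v hv
      have := hW (genA _) v hv
      rwa [rep_A] at this
    · intro v hv
      have := hW (genAs _) v hv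
      rwa [rep_As] at this
  · rw [rep_A, rep_As]
    exact hbad

end Pool.Agent.Results.MP_2c723a_al.UnequalEigenspaces
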